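import Pool.Agent.H413R2.RZ4_HPb
import Pool.Agent.H268R2.RZ_HT

/-! Task HP of the project RZ: expansion of the kernel into square classes. -/

set_option autoImplicit false

namespace Pool.Agent.H413R2.RZ4HP

open Finset Filter Topology MeasureTheory Pool.Agent.H306R2.RZ

noncomputable section

/-- expansion of the kernel into square classes -/
theorem HP (M : ℝ) (hM : 0 < M) (g q : ℕ) (hg : Odd g) (hgs : Squarefree g) (hq : Odd q)
    (hqs : Squarefree q) (hgq : g.Coprime q) (h4 : q % 4 = 1) (hq1 : 1 < q) :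
    Summable (fun k : ℤ => if Squarefree k.natAbs then |ThK M k g q| else 0) ∧
    (∑' m : ℤ, if Int.gcd m g = 1 then Real.exp (-(Real.pi * ((m : ℝ) / M) ^ 2)) * js m q else 0) =
      ∑' k : ℤ, if Squarefree k.natAbs then js k q * ThK M k g q else 0 := by
  have hq0 : q ≠ 0 := by omega
  have hqr : (0 : ℝ) < q := by exact_mod_cast Nat.pos_of_ne_zero hq0
  have hdat : ∀ e ∈ g.divisors, Squarefree e ∧ e.Coprime q ∧ (0 : ℝ) < e := fun e he =>
    ⟨hgs.squarefree_of_dvd (Nat.dvd_of_mem_divisors he),
      hgq.coprime_dvd_left (Nat.dvd_of_mem_divisors he),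
      by exact_mod_cast Nat.pos_of_mem_divisors he⟩
  constructor
  · have h1 : Summable (fun k : ℤ => ∑ e ∈ g.divisors, M / (e * Real.sqrt q) *
        (if Squarefree k.natAbs then Phr q (Zk M q e k) else 0)) :=
      summable_sum fun e he => (phr_summable M hM e q (hdat e he).1.ne_zero hq0).mul_left _
    refine Summable.of_norm_bounded h1 (fun k => ?_)
    by_cases hk : Squarefree k.natAbs
    · simp only [if_pos hk]
      rw [Real.norm_eq_abs, abs_abs, ThK]
      refine (Finset.abs_sum_le_sum_abs _ _).trans (Finset.sum_le_sum fun e he => ?_)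
      have he0 := (hdat e he).2.2
      have hc : 0 ≤ M / ((e : ℝ) * Real.sqrt q) := by positivity
      have hmu : |((ArithmeticFunction.moebius e : ℤ) : ℝ)| ≤ 1 := by
        exact_mod_cast ArithmeticFunction.abs_moebius_le_one
      rw [abs_mul, abs_mul, abs_of_nonneg hc, abs_of_nonneg (Phr_nonneg _ _)]
      have h2 : |((ArithmeticFunction.moebius e : ℤ) : ℝ)| * (M / ((e : ℝ) * Real.sqrt q)) ≤
          M / ((e : ℝ) * Real.sqrt q) := by nlinarith
      exact mul_le_mul_of_nonneg_right h2 (Phr_nonneg _ _)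
    · simp only [if_neg hk]
      simp
  · rw [sieve M hM g q hgs.ne_zero]
    have e1 : ∀ e ∈ g.divisors, ((ArithmeticFunction.moebius e : ℤ) : ℝ) * (js e q *
        ∑' m : ℤ, Real.exp (-(Real.pi * (m : ℝ) ^ 2 * ((e : ℝ) / M) ^ 2)) * js m q) =
        ∑' k : ℤ, ((ArithmeticFunction.moebius e : ℤ) : ℝ) * (M / (e * Real.sqrt q)) *
          (if Squarefree k.natAbs then js k q * Phr q (Zk M q e k) else 0) := by
      intro e he
      obtain ⟨hes, heq, he0⟩ := hdat e he
      rw [Pool.Agent.H268R2.RZHT.HT q hq hqs h4 ((e : ℝ) / M) (by positivity), tsum_mul_left,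
        ← dual_sum M hM e q hes hq1 heq]
      have h3 : 1 / ((e : ℝ) / M * Real.sqrt q) = M / (e * Real.sqrt q) := by
        field_simp
      rw [h3]
      have h4 : (∑' h : ℤ, Real.exp (-(Real.pi * (h : ℝ) ^ 2 / ((q : ℝ) ^ 2 * ((e : ℝ) / M) ^ 2))) *
          js h q) = ∑' h : ℤ, Gd M q e h * js h q := rfl
      rw [h4]
      ring
    rw [Finset.sum_congr rfl e1]
    have hsum : ∀ e ∈ g.divisors, Summable (fun k : ℤ =>
        ((ArithmeticFunction.moebius e : ℤ) : ℝ) * (M / (e * Real.sqrt q)) *
          (if Squarefree k.natAbs then js k q * Phr q (Zk M q e k) else 0)) := by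
      intro e he
      apply Summable.mul_left
      refine Summable.of_norm_bounded (phr_summable M hM e q (hdat e he).1.ne_zero hq0) (fun k => ?_)
      split_ifs
      · rw [Real.norm_eq_abs, abs_mul, abs_of_nonneg (Phr_nonneg _ _)]
        have := js_abs_le k q
        nlinarith [Phr_nonneg q (Zk M q e k)]
      · simp
    rw [← Summable.tsum_finsetSum hsum]
    congr 1
    funext k
    by_cases hk : Squarefree k.natAbs
    · simp only [if_pos hk]
      rw [ThK, Finset.mul_sum]
      refine Finset.sum_congr rfl fun e _ => ?_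
      show _ = js k q * (((ArithmeticFunction.moebius e : ℤ) : ℝ) * (M / (e * Real.sqrt q)) *
        Phr q (Zk M q e k))
      ring
    · simp only [if_neg hk]
      simp

end

end Pool.Agent.H413R2.RZ4HP
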