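import Pool.Agent.H413R2.RZ4_HMa

/-! Task HM of the project RZ, part b: the Mellin transform. -/

set_option autoImplicit false

namespace Pool.Agent.H413R2.RZ4HM

open Finset Filter Topology MeasureTheory Pool.Agent.H306R2.RZ Polynomial

noncomputable section

theorem Ep_Tp (P : ℝ[X]) (u : ℝ) : Ep (Tp P) u = u * Ep (Dp P) u := by
  simp only [Ep, Tp, eval_mul, eval_X]
  ring

theorem Ip_Tp (P : ℝ[X]) : Ip (Tp P) = -Ip P := by
  obtain ⟨K, hK, h⟩ := Ep_bound P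
  have h1 : ∀ u ∈ Set.Ici (0 : ℝ), HasDerivAt (fun u => u * Ep P u) (Ep P u + Ep (Tp P) u) u := by
    intro u _
    refine ((hasDerivAt_id u).mul (Ep_hasDeriv P u)).congr_deriv ?_
    rw [Ep_Tp]
    simp
  have h2 : Tendsto (fun u => u * Ep P u) atTop (𝓝 0) := by
    have h3 : Tendsto (fun u : ℝ => K / u) atTop (𝓝 0) := tendsto_const_nhds.div_atTop tendsto_id
    refine squeeze_zero_norm' ?_ h3
    filter_upwards [eventually_gt_atTop (0 : ℝ)] with u hu
    rw [Real.norm_eq_abs, abs_mul, abs_of_pos hu]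
    calc u * |Ep P u| ≤ u * (K / (1 + u ^ 2)) := mul_le_mul_of_nonneg_left (h u hu.le) hu.le
      _ ≤ K / u := by
        rw [mul_div_assoc', div_le_div_iff₀ (by positivity) hu]
        nlinarith
  have h4 := integral_Ioi_of_hasDerivAt_of_tendsto' h1 ((Ep_int P).add (Ep_int (Tp P))) h2
  rw [zero_mul, sub_zero] at h4
  have h5 : (∫ u in Set.Ioi (0 : ℝ), (Ep P u + Ep (Tp P) u)) = Ip P + Ip (Tp P) :=
    integral_add (Ep_int P) (Ep_int (Tp P))
  rw [h5] at h4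
  linarith

theorem Sd_hasDeriv (P : ℝ[X]) (x : ℝ) (hx : 0 < x) : HasDerivAt (Sd P) (Sd (Tp P) x / x) x := by
  obtain ⟨K, hK, h⟩ := sum_bound (Tp P)
  have hg : ∀ (b : ℕ) (z : ℝ), z ∈ Set.Ioi (x / 2) →
      HasDerivAt (fun z : ℝ => Ep P ((b + 1) * z)) (Ep (Tp P) ((b + 1) * z) / z) z := by
    intro b z hz
    have hz0 : 0 < z := lt_trans (by linarith) hz
    have h1 : HasDerivAt (fun z : ℝ => ((b : ℝ) + 1) * z) ((b : ℝ) + 1) z := by
      simpa using (hasDerivAt_id z).const_mul ((b : ℝ) + 1)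
    refine ((Ep_hasDeriv P _).comp z h1).congr_deriv ?_
    rw [Ep_Tp]
    field_simp
  have hg' : ∀ (b : ℕ) (z : ℝ), z ∈ Set.Ioi (x / 2) →
      ‖Ep (Tp P) ((b + 1) * z) / z‖ ≤ K / (x / 2) ^ 2 / (x / 2) * (1 / ((b : ℝ) + 1) ^ 2) := by
    intro b z hz
    have hx2 : 0 < x / 2 := by linarith
    have hz0 : 0 < z := lt_trans hx2 hz
    rw [norm_div, Real.norm_eq_abs, Real.norm_eq_abs, abs_of_pos hz0, div_le_iff₀ hz0]
    refine (h z hz0 b).trans ?_
    have e1 : K / z ^ 2 ≤ K / (x / 2) ^ 2 :=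
      div_le_div_of_nonneg_left hK.le (by positivity)
        (pow_le_pow_left₀ hx2.le (le_of_lt hz) 2)
    have e2 : K / (x / 2) ^ 2 ≤ K / (x / 2) ^ 2 / (x / 2) * z := by
      rw [div_mul_eq_mul_div, le_div_iff₀ hx2]
      exact mul_le_mul_of_nonneg_left (le_of_lt hz) (by positivity)
    have e3 : 0 ≤ 1 / ((b : ℝ) + 1) ^ 2 := by positivity
    calc K / z ^ 2 * (1 / ((b : ℝ) + 1) ^ 2) ≤
        (K / (x / 2) ^ 2 / (x / 2) * z) * (1 / ((b : ℝ) + 1) ^ 2) :=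
          mul_le_mul_of_nonneg_right (e1.trans e2) e3
      _ = _ := by ring
  have hmem : x ∈ Set.Ioi (x / 2) := by
    show x / 2 < x
    linarith
  have h1 := hasDerivAt_tsum_of_isPreconnected
    (summable_sq.mul_left (K / (x / 2) ^ 2 / (x / 2))) isOpen_Ioi isPreconnected_Ioi hg hg' hmem
    (Ep_summable P x hx) hmem
  have h2 : HasDerivAt (fun x : ℝ => Ip P / x) (-(Ip P) / x ^ 2) x := by
    have := (hasDerivAt_const x (Ip P)).div (hasDerivAt_id x) hx.ne'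
    refine this.congr_deriv ?_
    simp
  refine (h1.sub h2).congr_deriv ?_
  rw [tsum_div_const, Sd, Ip_Tp]
  field_simp
  ring

theorem Sd_contOn (P : ℝ[X]) : ContinuousOn (fun x => (Sd P x : ℂ)) (Set.Ioi 0) :=
  fun x hx => (Complex.continuous_ofReal.continuousAt.comp
    (Sd_hasDeriv P x hx).continuousAt).continuousWithinAt

theorem Sd_locInt (P : ℝ[X]) : LocallyIntegrableOn (fun x => (Sd P x : ℂ)) (Set.Ioi 0) :=
  (Sd_contOn P).locallyIntegrableOn measurableSet_Ioi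

theorem Sd_top (P : ℝ[X]) : (fun x => (Sd P x : ℂ)) =O[atTop] (fun x : ℝ => x ^ (-(1 : ℝ))) := by
  obtain ⟨K, hK, h⟩ := Sd_bound P
  refine Asymptotics.IsBigO.of_bound K ?_
  filter_upwards [eventually_gt_atTop (0 : ℝ)] with x hx
  rw [Complex.norm_real, Real.norm_eq_abs, Real.rpow_neg_one, Real.norm_eq_abs,
    abs_of_pos (inv_pos.2 hx), ← div_eq_mul_inv]
  exact (h x hx).2

theorem Sd_bot (P : ℝ[X]) :
    (fun x => (Sd P x : ℂ)) =O[𝓝[>] 0] (fun x : ℝ => x ^ (-(0 : ℝ))) := by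
  obtain ⟨K, hK, h⟩ := Sd_bound P
  refine Asymptotics.IsBigO.of_bound K ?_
  filter_upwards [self_mem_nhdsWithin] with x hx
  rw [Complex.norm_real, Real.norm_eq_abs, neg_zero, Real.rpow_zero, norm_one, mul_one]
  exact (h x hx).1

theorem Sd_mellin (P : ℝ[X]) (s : ℂ) (h0 : 0 < s.re) (h1 : s.re < 1) :
    MellinConvergent (fun x => (Sd P x : ℂ)) s :=
  mellinConvergent_of_isBigO_rpow (Sd_locInt P) (Sd_top P) h1 (Sd_bot P) h0

theorem Sd_mellin_diff (P : ℝ[X]) (s : ℂ) (h0 : 0 < s.re) (h1 : s.re < 1) :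
    DifferentiableAt ℂ (mellin (fun x => (Sd P x : ℂ))) s :=
  mellin_differentiableAt_of_isBigO_rpow (Sd_locInt P) (Sd_top P) h1 (Sd_bot P) h0

theorem mellin_Tp (P : ℝ[X]) (s : ℂ) (h0 : 0 < s.re) (h1 : s.re < 1) :
    mellin (fun x => (Sd (Tp P) x : ℂ)) s = -s * mellin (fun x => (Sd P x : ℂ)) s := by
  obtain ⟨K, hK, h⟩ := Sd_bound P
  have hs : s ≠ 0 := by
    intro h
    rw [h] at h0
    simp at h0
  have hu : ∀ x ∈ Set.Ioi (0 : ℝ), HasDerivAt (fun x : ℝ => (x : ℂ) ^ s) (s * (x : ℂ) ^ (s - 1)) x := by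
    intro x hx
    have : HasDerivAt (fun z : ℂ => z ^ s) (s * (x : ℂ) ^ (s - 1)) (x : ℂ) := by
      have := (hasDerivAt_id (x : ℂ)).cpow_const (c := s) (Or.inl (by simpa using hx))
      simpa using this
    exact this.comp_ofReal
  have hv : ∀ x ∈ Set.Ioi (0 : ℝ), HasDerivAt (fun x : ℝ => (Sd P x : ℂ))
      ((Sd (Tp P) x / x : ℝ) : ℂ) x := fun x hx => (Sd_hasDeriv P x hx).ofReal_comp
  have e1 : ∀ x ∈ Set.Ioi (0 : ℝ), (x : ℂ) ^ s * ((Sd (Tp P) x / x : ℝ) : ℂ) =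
      (x : ℂ) ^ (s - 1) • (Sd (Tp P) x : ℂ) := by
    intro x hx
    have hx0 : (x : ℂ) ≠ 0 := Complex.ofReal_ne_zero.2 (ne_of_gt hx)
    rw [Complex.cpow_sub _ _ hx0, Complex.cpow_one, smul_eq_mul, Complex.ofReal_div]
    ring
  have huv' : IntegrableOn ((fun x : ℝ => (x : ℂ) ^ s) *
      fun x : ℝ => ((Sd (Tp P) x / x : ℝ) : ℂ)) (Set.Ioi 0) :=
    IntegrableOn.congr_fun (Sd_mellin (Tp P) s h0 h1) (fun x hx => (e1 x hx).symm)
      measurableSet_Ioi
  have hu'v : IntegrableOn ((fun x : ℝ => s * (x : ℂ) ^ (s - 1)) *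
      fun x : ℝ => (Sd P x : ℂ)) (Set.Ioi 0) := by
    refine IntegrableOn.congr_fun ((Sd_mellin P s h0 h1).const_mul s) (fun x _ => ?_)
      measurableSet_Ioi
    simp only [Pi.mul_apply, smul_eq_mul]
    ring
  have hz : Tendsto ((fun x : ℝ => (x : ℂ) ^ s) * fun x : ℝ => (Sd P x : ℂ)) (𝓝[>] 0) (𝓝 0) := by
    have h3 : Tendsto (fun x : ℝ => x ^ s.re * K) (𝓝[>] 0) (𝓝 0) := by
      have : Tendsto (fun x : ℝ => x ^ s.re * K) (𝓝 0) (𝓝 (0 ^ s.re * K)) :=
        ((Real.continuousAt_rpow_const 0 s.re (Or.inr h0.le)).tendsto).mul_const K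
      rw [Real.zero_rpow h0.ne', zero_mul] at this
      exact this.mono_left nhdsWithin_le_nhds
    refine squeeze_zero_norm' ?_ h3
    filter_upwards [self_mem_nhdsWithin] with x hx
    rw [Pi.mul_apply, norm_mul, Complex.norm_cpow_eq_rpow_re_of_pos hx, Complex.norm_real]
    exact mul_le_mul_of_nonneg_left (h x hx).1 (Real.rpow_nonneg (le_of_lt hx) _)
  have hi : Tendsto ((fun x : ℝ => (x : ℂ) ^ s) * fun x : ℝ => (Sd P x : ℂ)) atTop (𝓝 0) := by
    have h3 : Tendsto (fun x : ℝ => K * x ^ (-(1 - s.re))) atTop (𝓝 0) := by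
      have := (tendsto_rpow_neg_atTop (by linarith : 0 < 1 - s.re)).const_mul K
      simpa using this
    refine squeeze_zero_norm' ?_ h3
    filter_upwards [eventually_gt_atTop (0 : ℝ)] with x hx
    rw [Pi.mul_apply, norm_mul, Complex.norm_cpow_eq_rpow_re_of_pos hx, Complex.norm_real]
    refine (mul_le_mul_of_nonneg_left (h x hx).2 (Real.rpow_nonneg hx.le _)).trans (le_of_eq ?_)
    rw [neg_sub, Real.rpow_sub hx, Real.rpow_one]
    ring
  have main := integral_Ioi_mul_deriv_eq_deriv_mul hu hv huv' hu'v hz hi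
  rw [sub_zero, zero_sub] at main
  rw [mellin, ← setIntegral_congr_fun measurableSet_Ioi e1, main, mellin, neg_mul,
    ← integral_const_mul]
  congr 1
  refine setIntegral_congr_fun measurableSet_Ioi (fun x _ => ?_)
  simp only [smul_eq_mul]
  ring

/-- uniform bound on vertical lines -/
theorem mellin_norm_le (P : ℝ[X]) (σ : ℝ) : ∃ M : ℝ, 0 ≤ M ∧ ∀ t : ℝ,
    ‖mellin (fun x => (Sd P x : ℂ)) ((σ : ℂ) + t * Complex.I)‖ ≤ M := by
  refine ⟨∫ x in Set.Ioi (0 : ℝ), x ^ (σ - 1) * |Sd P x|, ?_, fun t => ?_⟩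
  · exact setIntegral_nonneg measurableSet_Ioi fun x hx =>
      mul_nonneg (Real.rpow_nonneg (le_of_lt hx) _) (abs_nonneg _)
  · refine (norm_integral_le_integral_norm _).trans (le_of_eq ?_)
    refine setIntegral_congr_fun measurableSet_Ioi (fun x hx => ?_)
    simp only [norm_smul, Complex.norm_real, Real.norm_eq_abs]
    rw [Complex.norm_cpow_eq_rpow_re_of_pos hx]
    simp

theorem vertical (σ : ℝ) (h0 : 0 < σ) (h1 : σ < 1) :
    Complex.VerticalIntegrable (mellin (fun x => (Sd 1 x : ℂ))) σ := by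
  obtain ⟨M, hM, hb⟩ := mellin_norm_le (Tp (Tp 1)) σ
  have hcont : Continuous fun t : ℝ => mellin (fun x => (Sd 1 x : ℂ)) ((σ : ℂ) + t * Complex.I) := by
    rw [continuous_iff_continuousAt]
    intro t
    have h2 : ContinuousAt (mellin (fun x => (Sd 1 x : ℂ))) ((σ : ℂ) + t * Complex.I) :=
      (Sd_mellin_diff 1 _ (by simpa using h0) (by simpa using h1)).continuousAt
    have h3 : ContinuousAt (fun t : ℝ => (σ : ℂ) + t * Complex.I) t := by fun_prop
    exact ContinuousAt.comp (f := fun t : ℝ => (σ : ℂ) + t * Complex.I) h2 h3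
  have hint : Integrable (fun t : ℝ => M / (σ ^ 2) * (1 + (t / σ) ^ 2)⁻¹) := by
    exact ((integrable_inv_one_add_sq).comp_div h0.ne').const_mul _
  refine hint.mono' hcont.aestronglyMeasurable (Eventually.of_forall fun t => ?_)
  set s : ℂ := (σ : ℂ) + t * Complex.I with hs
  have hre : s.re = σ := by simp [hs]
  have hs0 : s ≠ 0 := by
    intro h
    rw [h] at hre
    simp at hre
    exact h0.ne hre
  have e1 := mellin_Tp (Tp 1) s (by rw [hre]; exact h0) (by rw [hre]; exact h1)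
  have e2 := mellin_Tp 1 s (by rw [hre]; exact h0) (by rw [hre]; exact h1)
  rw [e2] at e1
  have h2 := hb t
  rw [← hs, e1, norm_mul, norm_mul, norm_neg] at h2
  have h3 : ‖s‖ ^ 2 = σ ^ 2 * (1 + (t / σ) ^ 2) := by
    rw [← Complex.normSq_eq_norm_sq, Complex.normSq_apply]
    simp [hs]
    field_simp
  have h4 : 0 < ‖s‖ := norm_pos_iff.2 hs0
  have h5 : ‖s‖ ^ 2 * ‖mellin (fun x => (Sd 1 x : ℂ)) s‖ ≤ M := by
    calc _ = ‖s‖ * (‖s‖ * ‖mellin (fun x => (Sd 1 x : ℂ)) s‖) := by ring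
      _ ≤ M := h2
  rw [h3] at h5
  have h6 : 0 < σ ^ 2 * (1 + (t / σ) ^ 2) := by positivity
  have h7 : M / σ ^ 2 * (1 + (t / σ) ^ 2)⁻¹ = M / (σ ^ 2 * (1 + (t / σ) ^ 2)) := by
    field_simp
  rw [h7, le_div_iff₀ h6, mul_comm]
  exact h5

end

end Pool.Agent.H413R2.RZ4HM
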