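import Pool.Agent.H413R2.RZ4_HPa

/-! Task HP of the project RZ, part b: regrouping. -/

set_option autoImplicit false

namespace Pool.Agent.H413R2.RZ4HP

open Finset Filter Topology MeasureTheory Pool.Agent.H306R2.RZ

noncomputable section

theorem gauss_summable (c : ℝ) (hc : 0 < c) :
    Summable (fun h : ℤ => Real.exp (-(c * (h : ℝ) ^ 2))) := by
  have h1 : Summable (fun h : ℤ => c⁻¹ * (1 / (h : ℝ) ^ 2)) :=
    (Real.summable_one_div_int_pow.2 (by norm_num : 1 < 2)).mul_left _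
  refine Summable.of_norm_bounded_eventually h1 ?_
  have h2 : ({0} : Set ℤ)ᶜ ∈ (Filter.cofinite : Filter ℤ) :=
    (Set.finite_singleton (0 : ℤ)).compl_mem_cofinite
  filter_upwards [h2] with h hh
  have hh0 : (h : ℝ) ≠ 0 := by exact_mod_cast hh
  have hp : 0 < c * (h : ℝ) ^ 2 := by positivity
  rw [Real.norm_eq_abs, abs_of_pos (Real.exp_pos _), Real.exp_neg, inv_mul_eq_div, div_div,
    ← one_div]
  apply div_le_div_of_nonneg_left (by norm_num) (by positivity)
  have := Real.add_one_le_exp (c * (h : ℝ) ^ 2)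
  nlinarith

/-- the Gaussian on the dual side -/
def Gd (M : ℝ) (q e : ℕ) (h : ℤ) : ℝ :=
  Real.exp (-(Real.pi * (h : ℝ) ^ 2 / ((q : ℝ) ^ 2 * ((e : ℝ) / M) ^ 2)))

theorem Gd_summable (M : ℝ) (hM : 0 < M) (q e : ℕ) (hq : q ≠ 0) (he : e ≠ 0) :
    Summable (Gd M q e) := by
  have hq0 : (0 : ℝ) < q := by exact_mod_cast Nat.pos_of_ne_zero hq
  have he0 : (0 : ℝ) < e := by exact_mod_cast Nat.pos_of_ne_zero he
  have := gauss_summable (Real.pi / ((q : ℝ) ^ 2 * ((e : ℝ) / M) ^ 2)) (by positivity)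
  refine this.congr fun h => ?_
  rw [Gd]
  congr 2
  ring

/-- the scale -/
def Zk (M : ℝ) (q e : ℕ) (k : ℤ) : ℝ :=
  Real.sqrt ((e.gcd k.natAbs : ℝ) ^ 2 * q / ((k.natAbs : ℝ) * M))

theorem Gd_Hm (M : ℝ) (hM : 0 < M) (e q : ℕ) (he : e ≠ 0) (hq : q ≠ 0) (k : ℤ) (hk : k ≠ 0)
    (b : ℕ) : Gd M q e (Hm e k b) = Real.exp (-(Real.pi * ((b : ℝ) / Zk M q e k) ^ 4)) := by
  rw [Gd, mul_div_assoc, Hm_size M hM e q he hq k hk b]
  rfl

/-- terms of the double sum -/
def ff (M : ℝ) (q e : ℕ) (p : ℤ × ℕ) : ℝ :=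
  if Squarefree p.1.natAbs then
    (if p.2 ≠ 0 ∧ p.2.Coprime q then Real.exp (-(Real.pi * ((p.2 : ℝ) / Zk M q e p.1) ^ 4)) else 0)
  else 0

theorem ne_of_sqf {k : ℤ} (hk : Squarefree k.natAbs) : k ≠ 0 := by
  rintro rfl
  simp at hk

theorem ff_summable (M : ℝ) (hM : 0 < M) (e q : ℕ) (he : e ≠ 0) (hq : q ≠ 0) :
    Summable (ff M q e) := by
  have h1 : Summable (fun p : IS => Gd M q e (Hm e p.1.1 p.1.2)) :=
    (Gd_summable M hM q e hq he).comp_injective (Hm_inj e he)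
  have h2 : Summable (IS.indicator (fun p : ℤ × ℕ => Gd M q e (Hm e p.1 p.2))) :=
    (summable_subtype_iff_indicator (f := fun p : ℤ × ℕ => Gd M q e (Hm e p.1 p.2))).1 h1
  refine Summable.of_norm_bounded h2 (fun p => ?_)
  obtain ⟨k, b⟩ := p
  have hnn : 0 ≤ IS.indicator (fun p : ℤ × ℕ => Gd M q e (Hm e p.1 p.2)) (k, b) :=
    Set.indicator_nonneg (fun _ _ => (Real.exp_pos _).le) _
  unfold ff
  simp only
  split_ifs with hk hb
  · rw [Set.indicator_of_mem (show (k, b) ∈ IS from ⟨hk, hb.1⟩), Gd_Hm M hM e q he hq k (ne_of_sqf hk),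
      Real.norm_eq_abs, abs_of_pos (Real.exp_pos _)]
  · rw [norm_zero]; exact hnn
  · rw [norm_zero]; exact hnn

theorem ff_tsum (M : ℝ) (e q : ℕ) (k : ℤ) :
    ∑' b : ℕ, ff M q e (k, b) = if Squarefree k.natAbs then Phr q (Zk M q e k) else 0 := by
  unfold ff
  simp only
  split_ifs with hk
  · rfl
  · simp

theorem phr_summable (M : ℝ) (hM : 0 < M) (e q : ℕ) (he : e ≠ 0) (hq : q ≠ 0) :
    Summable (fun k : ℤ => if Squarefree k.natAbs then Phr q (Zk M q e k) else 0) := by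
  have := (ff_summable M hM e q he hq).prod
  refine this.congr fun k => ?_
  rw [ff_tsum]

theorem Phr_nonneg (r : ℕ) (Z : ℝ) : 0 ≤ Phr r Z := by
  apply tsum_nonneg
  intro b
  split_ifs
  · exact (Real.exp_pos _).le
  · exact le_rfl

theorem dual_sum (M : ℝ) (hM : 0 < M) (e q : ℕ) (hes : Squarefree e) (hq1 : 1 < q)
    (heq : e.Coprime q) :
    js e q * ∑' h : ℤ, Gd M q e h * js h q =
      ∑' k : ℤ, if Squarefree k.natAbs then js k q * Phr q (Zk M q e k) else 0 := by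
  have he : e ≠ 0 := hes.ne_zero
  have hq : q ≠ 0 := by omega
  set F : ℤ → ℝ := fun h => Gd M q e h * (js e q * js h q) with hF
  have hFs : Summable F := by
    refine Summable.of_norm_bounded (Gd_summable M hM q e hq he) (fun h => ?_)
    rw [hF, norm_mul, Real.norm_eq_abs, Real.norm_eq_abs, Gd, abs_of_pos (Real.exp_pos _), abs_mul]
    have h1 := mul_le_mul (js_abs_le e q) (js_abs_le h q) (abs_nonneg _) (by norm_num : (0:ℝ) ≤ 1)
    have h2 := (Real.exp_pos (-(Real.pi * (h : ℝ) ^ 2 / ((q : ℝ) ^ 2 * ((e : ℝ) / M) ^ 2)))).le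
    nlinarith
  have e1 : js e q * ∑' h : ℤ, Gd M q e h * js h q = ∑' h : ℤ, F h := by
    rw [← tsum_mul_left]
    congr 1
    funext h
    rw [hF]
    ring
  have hsupp : Function.support F ⊆ Set.range (fun p : IS => Hm e p.1.1 p.1.2) := by
    intro h hh
    have h0 : h ≠ 0 := by
      rintro rfl
      apply hh
      show Gd M q e 0 * (js e q * js 0 q) = 0
      rw [js, js, jacobiSym.zero_left hq1]
      simp
    exact Hm_surj e hes h h0
  have e2 : ∑' h : ℤ, F h = ∑' p : IS, F (Hm e p.1.1 p.1.2) := ((Hm_inj e he).tsum_eq hsupp).symm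
  have e3 : ∑' p : IS, F (Hm e p.1.1 p.1.2) =
      ∑' p : ℤ × ℕ, IS.indicator (fun p : ℤ × ℕ => F (Hm e p.1 p.2)) p :=
    tsum_subtype IS (fun p : ℤ × ℕ => F (Hm e p.1 p.2))
  have hs2 : Summable (IS.indicator (fun p : ℤ × ℕ => F (Hm e p.1 p.2))) :=
    (summable_subtype_iff_indicator (f := fun p : ℤ × ℕ => F (Hm e p.1 p.2))).1
      (hFs.comp_injective (Hm_inj e he))
  rw [e1, e2, e3, hs2.tsum_prod]
  congr 1
  funext k
  split_ifs with hk
  · rw [Phr, ← tsum_mul_left]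
    congr 1
    funext b
    by_cases hb : b = 0
    · subst hb
      rw [Set.indicator_of_notMem (fun h => h.2 rfl)]
      simp
    · rw [Set.indicator_of_mem (show (k, b) ∈ IS from ⟨hk, hb⟩)]
      show Gd M q e (Hm e k b) * (js e q * js (Hm e k b) q) = _
      rw [js_Hm e q heq hq, Gd_Hm M hM e q he hq k (ne_of_sqf hk)]
      by_cases hc : b.Coprime q
      · rw [if_pos hc, if_pos ⟨hb, hc⟩]
        ring
      · rw [if_neg hc, if_neg (fun h => hc h.2)]
        ring
  · have : (fun b : ℕ => IS.indicator (fun p : ℤ × ℕ => F (Hm e p.1 p.2)) (k, b)) = fun _ => 0 := by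
      funext b
      exact Set.indicator_of_notMem (fun h => hk h.1) _
    rw [this, tsum_zero]

/-- sieving by the divisors of `g` -/
theorem sieve (M : ℝ) (hM : 0 < M) (g q : ℕ) (hg : g ≠ 0) :
    (∑' m : ℤ, if Int.gcd m g = 1 then Real.exp (-(Real.pi * ((m : ℝ) / M) ^ 2)) * js m q else 0) =
    ∑ e ∈ g.divisors, ((ArithmeticFunction.moebius e : ℤ) : ℝ) * (js e q *
      ∑' m : ℤ, Real.exp (-(Real.pi * (m : ℝ) ^ 2 * ((e : ℝ) / M) ^ 2)) * js m q) := by
  set E : ℤ → ℝ := fun m => Real.exp (-(Real.pi * ((m : ℝ) / M) ^ 2)) * js m q with hE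
  have hEs : Summable E := by
    have h1 : Summable (fun m : ℤ => Real.exp (-(Real.pi * ((m : ℝ) / M) ^ 2))) := by
      refine (gauss_summable (Real.pi / M ^ 2) (by positivity)).congr fun m => ?_
      congr 2
      ring
    refine Summable.of_norm_bounded h1 (fun m => ?_)
    rw [hE, norm_mul, Real.norm_eq_abs, Real.norm_eq_abs, abs_of_pos (Real.exp_pos _)]
    have := js_abs_le m q
    have h2 := (Real.exp_pos (-(Real.pi * ((m : ℝ) / M) ^ 2))).le
    nlinarith
  have key : ∀ e ∈ g.divisors, HasSum (fun m : ℤ => if (e : ℤ) ∣ m then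
      ((ArithmeticFunction.moebius e : ℤ) : ℝ) * E m else 0)
      (((ArithmeticFunction.moebius e : ℤ) : ℝ) * (js e q *
      ∑' m : ℤ, Real.exp (-(Real.pi * (m : ℝ) ^ 2 * ((e : ℝ) / M) ^ 2)) * js m q)) := by
    intro e he
    have he0 : (e : ℤ) ≠ 0 := by exact_mod_cast (Nat.pos_of_mem_divisors he).ne'
    have hinj : Function.Injective (fun m : ℤ => (e : ℤ) * m) := mul_right_injective₀ he0
    rw [← hinj.hasSum_iff (f := fun m : ℤ => if (e : ℤ) ∣ m then
      ((ArithmeticFunction.moebius e : ℤ) : ℝ) * E m else 0)]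
    · have h1 : ((fun m : ℤ => if (e : ℤ) ∣ m then
          ((ArithmeticFunction.moebius e : ℤ) : ℝ) * E m else 0) ∘ fun m : ℤ => (e : ℤ) * m) =
          fun m : ℤ => ((ArithmeticFunction.moebius e : ℤ) : ℝ) * E ((e : ℤ) * m) := by
        funext m
        simp
      have h2 : ∀ m : ℤ, E ((e : ℤ) * m) = js e q *
          (Real.exp (-(Real.pi * (m : ℝ) ^ 2 * ((e : ℝ) / M) ^ 2)) * js m q) := by
        intro m
        rw [hE]
        simp only
        rw [js_mul]
        push_cast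
        have : Real.pi * ((e : ℝ) * m / M) ^ 2 = Real.pi * (m : ℝ) ^ 2 * ((e : ℝ) / M) ^ 2 := by
          ring
        rw [this]
        ring
      rw [h1, ← tsum_mul_left]
      have h3 : Summable (fun m : ℤ => E ((e : ℤ) * m)) := hEs.comp_injective hinj
      have h4 := h3.hasSum.mul_left (((ArithmeticFunction.moebius e : ℤ) : ℝ))
      have h5 : ∑' m : ℤ, E ((e : ℤ) * m) = ∑' m : ℤ, js e q *
          (Real.exp (-(Real.pi * (m : ℝ) ^ 2 * ((e : ℝ) / M) ^ 2)) * js m q) := by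
        congr 1
        funext m
        exact h2 m
      rw [h5] at h4
      exact h4
    · intro m hm
      rw [if_neg]
      rintro ⟨c, rfl⟩
      exact hm ⟨c, rfl⟩
  have h2 := hasSum_sum key
  rw [← h2.tsum_eq]
  congr 1
  funext m
  have hg' : (Int.gcd m g).divisors = g.divisors.filter (fun e : ℕ => (e : ℤ) ∣ m) := by
    ext d
    simp only [Nat.mem_divisors, Finset.mem_filter]
    have h0 : Int.gcd m g ≠ 0 := by
      rw [Ne, Int.gcd_eq_zero_iff]
      rintro ⟨_, h⟩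
      exact hg (by exact_mod_cast h)
    constructor
    · rintro ⟨h1, _⟩
      have h3 : (d : ℤ) ∣ (Int.gcd m g : ℤ) := by exact_mod_cast h1
      exact ⟨⟨by exact_mod_cast h3.trans (Int.gcd_dvd_right _ _), hg⟩,
        h3.trans (Int.gcd_dvd_left _ _)⟩
    · rintro ⟨⟨h1, _⟩, h3⟩
      have h4 : (d : ℤ) ∣ (Int.gcd m g : ℤ) := Int.dvd_coe_gcd h3 (by exact_mod_cast h1)
      exact ⟨by exact_mod_cast h4, h0⟩
  have h5 : (∑ e ∈ g.divisors, if (e : ℤ) ∣ m then
      ((ArithmeticFunction.moebius e : ℤ) : ℝ) * E m else 0) =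
      (∑ d ∈ (Int.gcd m g).divisors, ((ArithmeticFunction.moebius d : ℤ) : ℝ)) * E m := by
    rw [hg', Finset.sum_mul, Finset.sum_filter]
  have h6 : (∑ d ∈ (Int.gcd m g).divisors, ((ArithmeticFunction.moebius d : ℤ) : ℝ)) =
      if Int.gcd m g = 1 then 1 else 0 := by
    have h7 : (∑ d ∈ (Int.gcd m g).divisors, ArithmeticFunction.moebius d) =
        if Int.gcd m g = 1 then (1 : ℤ) else 0 := by
      rw [← ArithmeticFunction.coe_mul_zeta_apply, ArithmeticFunction.moebius_mul_coe_zeta,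
        ArithmeticFunction.one_apply]
    exact_mod_cast h7
  rw [h5, h6]
  split_ifs <;> simp [hE]

end

end Pool.Agent.H413R2.RZ4HP
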